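import Pool.Agent.U252.SZ.Zeta

/-! The rotated mean of the lengths of the closed geodesics. -/

set_option autoImplicit false

open scoped MatrixGroups

namespace Pool.Agent.U252.SZ

open Pool.Agent.U252.RM Filter Topology Set
open Pool.Agent.W187.UR (Lam cmean)
open Pool.Agent.W189.ML (ser om)

/-- absolute convergence of the rotated mean -/
theorem cds_summable {ι : Type} {A : ℝ} {lam : ι → ℝ} {c : ι → ℂ} {F : ℂ → ℂ}
    (D : CDS A lam c F) (z : ℂ) (γ : ℝ) {T : ℝ} (hT : 0 < T) :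
    Summable fun i => ‖(coffc lam c z i : ℂ) * Complex.exp ((γ * (lam i / T) : ℝ) * Complex.I) *
      (om (lam i / T) : ℂ)‖ := by
  set σ : ℝ := |A| + |z.re| + 1 with hσ
  have h0 := abs_nonneg A
  have h00 := abs_nonneg z.re
  have h01 := le_abs_self A
  have h02 := neg_abs_le z.re
  have hσ0 : 0 < σ := by rw [hσ]; linarith
  refine Summable.of_nonneg_of_le (fun x => norm_nonneg _) (fun x => ?_)
    ((D.sum (z.re + σ) (by rw [hσ]; linarith)).mul_left
      (Real.exp (Real.exp (σ * T)) + 1))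
  rw [norm_mul, norm_mul, Complex.norm_exp_ofReal_mul_I, mul_one,
    Complex.norm_real, Complex.norm_real, Real.norm_eq_abs, Real.norm_eq_abs]
  have hv : 0 ≤ lam x / T := div_nonneg (D.lam_nonneg x) hT.le
  have h1 := Pool.Agent.W189.ML.om_le (a := σ * T) (v := lam x / T) (by positivity) hv
  have h2 : σ * T * (lam x / T) = σ * lam x := by field_simp
  rw [h2] at h1
  have h3 : 0 ≤ om (lam x / T) := by
    unfold om
    exact inv_nonneg.2 (Real.Gamma_nonneg_of_nonneg (by linarith))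
  rw [abs_of_nonneg h3]
  have h4 := coffc_le (lam := lam) (c := c) z x
  have h5 : Real.exp (-((z.re + σ) * lam x)) =
      Real.exp (-(z.re * lam x)) * Real.exp (-(σ * lam x)) := by
    rw [← Real.exp_add]; congr 1; ring
  rw [h5]
  calc |coffc lam c z x| * om (lam x / T)
      ≤ (‖c x‖ * Real.exp (-(z.re * lam x))) * ((Real.exp (Real.exp (σ * T)) + 1) *
        Real.exp (-(σ * lam x))) := by gcongr
    _ = _ := by ring

variable {Γ : Subgroup SL(2, ℤ)}

/-- the term of the geodesic `P ^ (m + 1)`, of length `L` -/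
noncomputable def geoTerm (a γ T : ℝ) (x : Geodesic Γ × ℕ) : ℂ :=
  ((Real.exp (-((a - 1 / 2) * ((x.2 + 1) * x.1.len))) /
      ((x.2 + 1) * (2 * Real.sinh ((x.2 + 1) * x.1.len / 2))) *
      (Real.Gamma (1 + (x.2 + 1) * x.1.len / T))⁻¹ : ℝ) : ℂ) *
    Complex.exp ((γ * ((x.2 + 1) * x.1.len / T) : ℝ) * Complex.I)

theorem geoTerm_eq (a γ T : ℝ) (x : Geodesic Γ × ℕ) : geoTerm a γ T x =
    -((coffc ll (fun x => ((cr x : ℝ) : ℂ)) (a : ℂ) x : ℂ) *
      Complex.exp ((γ * (ll x / T) : ℝ) * Complex.I) * (om (ll x / T) : ℂ)) := by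
  have hL := ll_pos x
  have e1 : (x.2 + 1) * x.1.len = ll x := rfl
  have e2 : coffc ll (fun x => ((cr x : ℝ) : ℂ)) (a : ℂ) x =
      -(Real.exp (-((a - 1 / 2) * ll x)) / ((x.2 + 1) * (2 * Real.sinh (ll x / 2)))) := by
    unfold coffc
    have e3 : Complex.exp (-((a : ℂ) * (ll x : ℝ))) = ((Real.exp (-(a * ll x)) : ℝ) : ℂ) := by
      push_cast; rfl
    rw [e3, ← Complex.ofReal_mul, Complex.ofReal_re]
    unfold cr
    have h2 : (0 : ℝ) ≤ x.2 := x.2.cast_nonneg
    have h3 : Real.exp (-ll x) ≤ 1 / 4 := exp_ll x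
    have h4 : 1 - Real.exp (-ll x) ≠ 0 := by linarith
    have h5 : (0 : ℝ) < Real.sinh (ll x / 2) := Real.sinh_pos_iff.2 (by linarith)
    have h6 : 2 * Real.sinh (ll x / 2) = Real.exp (ll x / 2) * (1 - Real.exp (-ll x)) := by
      rw [Real.sinh_eq, mul_sub, mul_one, ← Real.exp_add]
      have : ll x / 2 + -ll x = -(ll x / 2) := by ring
      rw [this]
      ring
    have h7 : Real.exp (-((a - 1 / 2) * ll x)) =
        Real.exp (-(a * ll x)) * Real.exp (ll x / 2) := by
      rw [← Real.exp_add]; congr 1; ring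
    have h8 := (Real.exp_pos (ll x / 2)).ne'
    rw [h6, h7]
    field_simp
  unfold geoTerm
  rw [e1, e2]
  unfold om
  push_cast
  ring

theorem geoTerm_summable [Γ.FiniteIndex] (a γ : ℝ) {T : ℝ} (hT : 0 < T) :
    Summable fun x : Geodesic Γ × ℕ => ‖geoTerm a γ T x‖ := by
  have D := zeta_cds (Γ := Γ) (F := selbergZeta Γ) (fun s _ => rfl)
  refine (cds_summable D (a : ℂ) γ hT).congr fun x => ?_
  rw [geoTerm_eq, norm_neg]

theorem geo_sum (a γ T : ℝ) : ∑' x : Geodesic Γ × ℕ, geoTerm a γ T x =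
    -cmean ll (coffc ll (fun x : Geodesic Γ × ℕ => ((cr x : ℝ) : ℂ)) (a : ℂ)) γ T := by
  unfold cmean
  rw [← tsum_neg]
  exact tsum_congr fun x => geoTerm_eq a γ T x

/-- the number of zeros, if `F` has orders `k σ` at the points `a < σ < 1`, a simple zero at `1` and
no zeros and poles to the right -/
theorem ray_count {F : ℂ → ℂ} {a : ℝ} (ha1 : a < 1)
    (hmer : ∀ x : ℝ, a ≤ x → MeromorphicAt F (x : ℂ))
    (hright : ∀ σ : ℝ, 1 < σ → meromorphicOrderAt F (σ : ℂ) = 0)
    (hone : meromorphicOrderAt F (1 : ℂ) = 1) :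
    {σ : ℝ | a < σ ∧ σ < 1 ∧ (meromorphicOrderAt F (σ : ℂ)).untop₀ ≠ 0}.Finite ∧
    ∀ (S : Finset ℝ) (k : ℝ → ℕ), (∀ σ ∈ S, a < σ ∧ σ < 1) →
      (∀ σ : ℝ, a < σ → σ < 1 → meromorphicOrderAt F (σ : ℂ) = ((k σ : ℤ) : WithTop ℤ)) →
      (∀ σ : ℝ, a < σ → σ < 1 → σ ∉ S → k σ = 0) →
      rayZ F (a : ℂ) = 1 + ∑ σ ∈ S, (k σ : ℤ) := by
  constructor
  · set U : Set ℂ := (fun x : ℝ => (x : ℂ)) '' Icc a 1 with hU
    have hUc : IsCompact U := isCompact_Icc.image Complex.continuous_ofReal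
    have hm : MeromorphicOn F U := by
      rintro _ ⟨x, hx, rfl⟩
      exact hmer x hx.1
    have hf := (MeromorphicOn.divisor F U).finiteSupport hUc
    refine (hf.preimage (Complex.ofReal_injective.injOn (s := _))).subset ?_
    rintro σ ⟨h1, h2, h3⟩
    have h6 : (σ : ℂ) ∈ U := ⟨σ, ⟨h1.le, h2.le⟩, rfl⟩
    show (σ : ℂ) ∈ Function.support (MeromorphicOn.divisor F U)
    rw [Function.mem_support, MeromorphicOn.divisor_apply hm h6]
    exact h3
  · intro S k hS hk h0
    unfold rayZ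
    have e1 : ∀ x : ℝ, ((a : ℂ) + (x : ℂ)) = ((a + x : ℝ) : ℂ) := fun x => by push_cast; rfl
    have hinj : Function.Injective fun σ : ℝ => σ - a := fun x y h => by
      have : x - a = y - a := h
      linarith
    set S' : Finset ℝ := (insert 1 S).map ⟨fun σ : ℝ => σ - a, hinj⟩ with hS'
    have h1S : (1 : ℝ) ∉ S := fun h => lt_irrefl _ (hS 1 h).2
    have h2 : (∑ᶠ x ∈ Ioi (0 : ℝ), (meromorphicOrderAt F ((a : ℂ) + (x : ℂ))).untop₀) =
        ∑ᶠ x ∈ (S' : Set ℝ), (meromorphicOrderAt F ((a : ℂ) + (x : ℂ))).untop₀ := by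
      refine finsum_mem_inter_support_eq' _ _ _ fun x hx => ?_
      rw [Function.mem_support, e1] at hx
      constructor
      · intro h
        have h' : (0 : ℝ) < x := h
        rw [hS', Finset.coe_map, Finset.coe_insert]
        refine ⟨a + x, ?_, by simp⟩
        rcases lt_trichotomy (a + x) 1 with h3 | h3 | h3
        · right
          by_contra h4
          apply hx
          rw [hk _ (by linarith) h3, h0 _ (by linarith) h3 (by simpa using h4)]
          rfl
        · left; exact h3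
        · exfalso
          apply hx
          rw [hright _ h3]
          rfl
      · intro h
        rw [hS', Finset.coe_map, Finset.coe_insert] at h
        obtain ⟨σ, h3, h4⟩ := h
        have h5 : σ - a = x := h4
        rw [← h5]
        rcases h3 with h3 | h3
        · rw [h3]
          exact sub_pos.2 ha1
        · exact sub_pos.2 (hS σ h3).1
    rw [h2, finsum_mem_coe_finset, hS', Finset.sum_map, Finset.sum_insert h1S]
    congr 1
    · simp only [Function.Embedding.coeFn_mk]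
      rw [e1, add_sub_cancel, Complex.ofReal_one, hone]
      rfl
    · refine Finset.sum_congr rfl fun σ hσ => ?_
      simp only [Function.Embedding.coeFn_mk]
      rw [e1, add_sub_cancel, hk σ (hS σ hσ).1 (hS σ hσ).2]
      rfl

/-- **The law for the closed geodesics.** -/
theorem geo_law [Γ.FiniteIndex] {F : ℂ → ℂ} (hF : ∀ s : ℂ, 2 < s.re → F s = selbergZeta Γ s)
    {a : ℝ} (hmer : ∀ x : ℝ, a ≤ x → MeromorphicAt F (x : ℂ)) {γ : ℝ} (hγ : Real.pi / 2 < γ) :
    ∃ (n : ℤ) (l : ℂ), meromorphicOrderAt F (a : ℂ) = n ∧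
      meromorphicTrailingCoeffAt F (a : ℂ) = l ∧ l ≠ 0 ∧
      (fun T : ℝ => (∑' x : Geodesic Γ × ℕ, geoTerm a γ T x) - (n * (Real.log T - Lam γ) -
        Real.log ‖l‖ + Real.pi * rayZ F (a : ℂ) * Complex.I)) =O[atTop] (fun T : ℝ => 1 / T) := by
  obtain ⟨n, l, h1, h2, h3, h4⟩ := (zeta_cds (Γ := Γ) hF).off (a : ℂ) (fun x hx => by
    have := hmer (a + x) (by linarith)
    rwa [Complex.ofReal_add] at this) hγ
  refine ⟨n, l, h1, h2, h3, ?_⟩
  refine h4.neg_left.congr_left fun T => ?_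
  rw [geo_sum]
  ring

end Pool.Agent.U252.SZ
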