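import Pool.Agent.U252.SZ.Red

/-! The closed geodesics with a given trace: convergence of the sum over all closed geodesics. -/

set_option autoImplicit false

open scoped MatrixGroups

namespace Pool.Agent.U252.SZ

variable {Γ : Subgroup SL(2, ℤ)}

/-- a representative -/
noncomputable def rep (P : Geodesic Γ) : {g : SL(2, ℤ) // IsPrimitive Γ g} := Quotient.out P

theorem mk_rep (P : Geodesic Γ) : (Quotient.mk (conjSetoid Γ) (rep P) : Geodesic Γ) = P :=
  Quotient.out_eq P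

theorem tr_rep (P : Geodesic Γ) : P.tr = Matrix.trace (rep P).1.1 := by
  conv_lhs => rw [← mk_rep P]
  rfl

theorem tr_gt (P : Geodesic Γ) : 2 < P.tr := by
  rw [tr_rep]
  exact (rep P).2.1.1

/-- a conjugator to a reduced matrix -/
noncomputable def cj (P : Geodesic Γ) : SL(2, ℤ) := (exists_red _ (rep P).2.1.1).choose

theorem cj_red (P : Geodesic Γ) : Red (cj P * (rep P).1 * (cj P)⁻¹) :=
  (exists_red _ (rep P).2.1.1).choose_spec

/-- the reduced matrix -/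
noncomputable def rd (P : Geodesic Γ) : SL(2, ℤ) := cj P * (rep P).1 * (cj P)⁻¹

theorem rd_red (P : Geodesic Γ) : Red (rd P) := cj_red P

theorem rd_trace (P : Geodesic Γ) : Matrix.trace (rd P).1 = P.tr := by
  unfold rd
  rw [conj_trace, tr_rep]

/-- the invariants of a geodesic -/
noncomputable def inv4 (P : Geodesic Γ) : (ℤ × ℤ × ℤ) × (SL(2, ℤ) ⧸ Γ) :=
  ((P.tr, (rd P).1 0 0 - (rd P).1 1 1, (rd P).1 1 0), (QuotientGroup.mk (cj P)))

theorem inv4_injective : Function.Injective (inv4 (Γ := Γ)) := by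
  intro P Q h
  unfold inv4 at h
  simp only [Prod.mk.injEq] at h
  obtain ⟨⟨h1, h2, h3⟩, h4⟩ := h
  have hr : rd P = rd Q := red_ext (rd_red P) (by rw [rd_trace, rd_trace, h1]) h2 h3
  have h5 : (cj P)⁻¹ * cj Q ∈ Γ := QuotientGroup.eq.1 h4
  rw [← mk_rep P, ← mk_rep Q]
  apply Quotient.sound
  refine ⟨((cj P)⁻¹ * cj Q)⁻¹, Γ.inv_mem h5, ?_⟩
  have e1 : (rep P).1 = (cj P)⁻¹ * rd P * cj P := by
    unfold rd
    group
  have e2 : (rep Q).1 = (cj Q)⁻¹ * rd Q * cj Q := by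
    unfold rd
    group
  rw [e1, e2, hr]
  group

instance [Γ.FiniteIndex] : Countable (Geodesic Γ) := by
  have : Finite (SL(2, ℤ) ⧸ Γ) := Subgroup.finite_quotient_of_finiteIndex
  exact inv4_injective.countable

/-- the norm is at least `t² / 4` -/
theorem exp_len (P : Geodesic Γ) : Real.exp P.len =
    ((((P.tr : ℝ) + √((P.tr : ℝ) ^ 2 - 4)) / 2)) ^ 2 := by
  have h0 : (2 : ℝ) < P.tr := by exact_mod_cast tr_gt P
  have h1 : (0 : ℝ) ≤ √((P.tr : ℝ) ^ 2 - 4) := Real.sqrt_nonneg _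
  have h2 : (0 : ℝ) < ((P.tr : ℝ) + √((P.tr : ℝ) ^ 2 - 4)) / 2 := by linarith
  unfold Geodesic.len
  rw [mul_comm, Real.exp_mul, Real.exp_log h2]
  norm_cast

theorem exp_len_ge (P : Geodesic Γ) : ((P.tr : ℝ) / 2) ^ 2 ≤ Real.exp P.len := by
  have h0 : (2 : ℝ) < P.tr := by exact_mod_cast tr_gt P
  have h1 : (0 : ℝ) ≤ √((P.tr : ℝ) ^ 2 - 4) := Real.sqrt_nonneg _
  rw [exp_len]
  gcongr
  linarith

theorem exp_len_four (P : Geodesic Γ) : 4 ≤ Real.exp P.len := by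
  have h0 : (3 : ℝ) ≤ P.tr := by
    have := tr_gt P
    exact_mod_cast (show (3 : ℤ) ≤ P.tr by omega)
  have h1 : (1 : ℝ) ≤ √((P.tr : ℝ) ^ 2 - 4) := by
    rw [Real.one_le_sqrt]
    nlinarith
  rw [exp_len]
  nlinarith

theorem len_pos (P : Geodesic Γ) : 0 < P.len := by
  have h1 := exp_len_four P
  by_contra h
  push Not at h
  have := Real.exp_le_one_iff.2 h
  linarith

/-- the sum over `ℤ` -/
theorem sum_int : Summable fun n : ℤ => ((1 + |(n : ℝ)|) ^ (-(4 / 3) : ℝ)) := by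
  have h1 : Summable fun n : ℕ => ((1 + (n : ℝ)) ^ (-(4 / 3) : ℝ)) := by
    have h2 : Summable fun n : ℕ => ((n : ℝ)) ^ (-(4 / 3) : ℝ) :=
      Real.summable_nat_rpow.2 (by norm_num)
    have h3 := (summable_nat_add_iff 1).2 h2
    refine h3.congr fun n => ?_
    rw [Nat.cast_add, Nat.cast_one, add_comm]
  apply Summable.of_nat_of_neg
  · refine h1.congr fun n => ?_
    simp
  · refine h1.congr fun n => ?_
    simp

theorem sum_geo [Γ.FiniteIndex] {σ : ℝ} (hσ : 2 ≤ σ) :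
    Summable fun P : Geodesic Γ => Real.exp (-(σ * P.len)) := by
  have : Finite (SL(2, ℤ) ⧸ Γ) := Subgroup.finite_quotient_of_finiteIndex
  set f : ℤ → ℝ := fun n => ((1 + |(n : ℝ)|) ^ (-(4 / 3) : ℝ)) with hf
  have hf0 : ∀ n, 0 ≤ f n := fun n => by positivity
  have h1 : Summable fun x : (ℤ × ℤ × ℤ) × (SL(2, ℤ) ⧸ Γ) =>
      (f x.1.1 * (f x.1.2.1 * f x.1.2.2)) * 1 := by
    have a1 : Summable fun x : ℤ × ℤ => f x.1 * f x.2 :=
      sum_int.mul_of_nonneg sum_int hf0 hf0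
    have a2 : Summable fun x : ℤ × (ℤ × ℤ) => f x.1 * (f x.2.1 * f x.2.2) :=
      Summable.mul_of_nonneg (f := f) (g := fun x : ℤ × ℤ => f x.1 * f x.2) sum_int a1 hf0
        (fun x => mul_nonneg (hf0 _) (hf0 _))
    have a3 : Summable fun _ : SL(2, ℤ) ⧸ Γ => (1 : ℝ) := Summable.of_finite
    exact Summable.mul_of_nonneg (f := fun x : ℤ × ℤ × ℤ => f x.1 * (f x.2.1 * f x.2.2))
      (g := fun _ : SL(2, ℤ) ⧸ Γ => (1 : ℝ)) a2 a3
      (fun x => mul_nonneg (hf0 _) (mul_nonneg (hf0 _) (hf0 _))) (fun _ => zero_le_one)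
  have h2 := (h1.comp_injective (inv4_injective (Γ := Γ))).mul_left 256
  refine Summable.of_nonneg_of_le (fun P => (Real.exp_pos _).le) (fun P => ?_) h2
  have h0 : (2 : ℝ) < P.tr := by exact_mod_cast tr_gt P
  set t : ℝ := (P.tr : ℝ) with ht
  have ht0 : 0 < t := by linarith
  obtain ⟨r1, r2, r3⟩ := rd_red P
  have r4 := rd_trace P
  rw [Matrix.trace_fin_two] at r4
  rw [r4] at r2
  set m : ℤ := (rd P).1 0 0 - (rd P).1 1 1 with hm
  set c : ℤ := (rd P).1 1 0 with hc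
  have b1 : |(c : ℝ)| ≤ t := by
    rw [ht]; exact_mod_cast r2
  have b2 : |(m : ℝ)| ≤ t := by
    refine le_trans ?_ b1
    exact_mod_cast r1
  have b3 : |t| ≤ t := (abs_of_pos ht0).le
  have key : ∀ y : ℝ, |y| ≤ t → (2 * t) ^ (-(4 / 3) : ℝ) ≤ (1 + |y|) ^ (-(4 / 3) : ℝ) := by
    intro y hy
    exact Real.rpow_le_rpow_of_nonpos (by positivity) (by linarith) (by norm_num)
  have e1 : Real.exp (-(σ * P.len)) ≤ (t / 2) ^ (-4 : ℝ) := by
    have h4 := exp_len_ge P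
    rw [← ht] at h4
    have h5 : Real.exp (-(σ * P.len)) ≤ Real.exp (-(2 * P.len)) := by
      apply Real.exp_le_exp.2
      have := len_pos P
      nlinarith
    refine h5.trans ?_
    have h6 : Real.exp (-(2 * P.len)) = (Real.exp P.len ^ 2)⁻¹ := by
      rw [← Real.exp_nat_mul, ← Real.exp_neg]
      norm_num
    rw [h6, Real.rpow_neg (by positivity)]
    have h7 : (t / 2) ^ (4 : ℝ) = ((t / 2) ^ 2) ^ 2 := by
      rw [show (4 : ℝ) = ((4 : ℕ) : ℝ) by norm_num, Real.rpow_natCast]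
      ring
    rw [h7]
    gcongr
  have e2 : (t / 2) ^ (-4 : ℝ) = 256 * ((2 * t) ^ (-(4 / 3) : ℝ) *
      ((2 * t) ^ (-(4 / 3) : ℝ) * (2 * t) ^ (-(4 / 3) : ℝ))) := by
    rw [← Real.rpow_add (by positivity), ← Real.rpow_add (by positivity)]
    have h8 : t / 2 = (2 * t) * (1 / 4) := by ring
    rw [h8, Real.mul_rpow (by positivity) (by norm_num)]
    have h9 : (1 / 4 : ℝ) ^ (-4 : ℝ) = 256 := by
      rw [Real.rpow_neg (by norm_num), show (4 : ℝ) = ((4 : ℕ) : ℝ) by norm_num, Real.rpow_natCast]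
      norm_num
    rw [h9]
    norm_num
    ring
  refine e1.trans ?_
  rw [e2]
  simp only [Function.comp_apply, inv4, hf, mul_one]
  rw [← hm, ← hc]
  have k1 := key t b3
  have k2 := key m b2
  have k3 := key c b1
  have p1 : 0 ≤ (2 * t) ^ (-(4 / 3) : ℝ) := by positivity
  gcongr

end Pool.Agent.U252.SZ
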