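import Mathlib

/-! Closed geodesics of `Γ \ ℍ`, `Γ` a subgroup of `SL(2, ℤ)`, and the Selberg zeta function. -/

set_option autoImplicit false

open scoped MatrixGroups

namespace Pool.Agent.U252.SZ

/-- The hyperbolic elements of `Γ / {± 1}`, represented by matrices of trace `> 2`: the `g` in
`SL(2, ℤ)` with trace `> 2` such that `g` or `-g` is in `Γ`. -/
def Hyp (Γ : Subgroup SL(2, ℤ)) : Set SL(2, ℤ) :=
  {g | 2 < Matrix.trace g.1 ∧ (g ∈ Γ ∨ -g ∈ Γ)}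

/-- `g` is hyperbolic and not a proper power of a hyperbolic element. -/
def IsPrimitive (Γ : Subgroup SL(2, ℤ)) (g : SL(2, ℤ)) : Prop :=
  g ∈ Hyp Γ ∧ ∀ h ∈ Hyp Γ, ∀ k : ℕ, 2 ≤ k → h ^ k ≠ g

/-- Conjugation by elements of `Γ`. -/
def conjSetoid (Γ : Subgroup SL(2, ℤ)) : Setoid {g : SL(2, ℤ) // IsPrimitive Γ g} where
  r g h := ∃ γ ∈ Γ, γ * g.1 * γ⁻¹ = h.1
  iseqv :=
    { refl := fun g => ⟨1, Γ.one_mem, by simp⟩
      symm := by
        rintro g h ⟨γ, hγ, e⟩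
        refine ⟨γ⁻¹, Γ.inv_mem hγ, ?_⟩
        rw [← e]
        group
      trans := by
        rintro g h k ⟨γ, hγ, e⟩ ⟨δ, hδ, e'⟩
        refine ⟨δ * γ, Γ.mul_mem hδ hγ, ?_⟩
        rw [← e', ← e]
        group }

/-- The primitive closed geodesics of `Γ \ ℍ`: the `Γ`-conjugacy classes of the primitive
hyperbolic elements. -/
def Geodesic (Γ : Subgroup SL(2, ℤ)) : Type := Quotient (conjSetoid Γ)

/-- The trace `t > 2` of a closed geodesic. -/
def Geodesic.tr {Γ : Subgroup SL(2, ℤ)} (P : Geodesic Γ) : ℤ :=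
  Quotient.lift (fun g : {g : SL(2, ℤ) // IsPrimitive Γ g} => Matrix.trace g.1.1) (by
    rintro g h ⟨γ, -, e⟩
    have h1 := congrArg (fun x : SL(2, ℤ) => Matrix.trace x.1) e
    simp only [Matrix.SpecialLinearGroup.coe_mul] at h1
    rw [Matrix.trace_mul_comm, ← mul_assoc, ← Matrix.SpecialLinearGroup.coe_mul, inv_mul_cancel,
      Matrix.SpecialLinearGroup.coe_one, one_mul] at h1
    exact h1) P

/-- The length `ℓ(P) = 2 log ((t + √(t² - 4)) / 2)` of a closed geodesic of trace `t`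
(so `t = 2 cosh (ℓ(P) / 2)`, and the norm of `P` is `exp ℓ(P)`). -/
noncomputable def Geodesic.len {Γ : Subgroup SL(2, ℤ)} (P : Geodesic Γ) : ℝ :=
  2 * Real.log (((P.tr : ℝ) + √((P.tr : ℝ) ^ 2 - 4)) / 2)

/-- The Selberg zeta function `Z_Γ(s) = ∏_P ∏_{k ≥ 0} (1 - e^{-(s + k) ℓ(P)})`. -/
noncomputable def selbergZeta (Γ : Subgroup SL(2, ℤ)) (s : ℂ) : ℂ :=
  ∏' P : Geodesic Γ, ∏' k : ℕ, (1 - Complex.exp (-((s + k) * P.len)))

end Pool.Agent.U252.SZ
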