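import Pool.Agent.U252.SZ.Defs

/-! Reduction of hyperbolic matrices in `SL(2, ℤ)`. -/

set_option autoImplicit false

open scoped MatrixGroups

namespace Pool.Agent.U252.SZ

/-- reduced matrices -/
def Red (r : SL(2, ℤ)) : Prop :=
  |r.1 0 0 - r.1 1 1| ≤ |r.1 1 0| ∧ |r.1 1 0| ≤ r.1 0 0 + r.1 1 1 ∧ r.1 1 0 ≠ 0

theorem mul_ent (g h : SL(2, ℤ)) (i j : Fin 2) :
    (g * h).1 i j = g.1 i 0 * h.1 0 j + g.1 i 1 * h.1 1 j := by
  rw [show (g * h).1 = g.1 * h.1 from rfl, Matrix.mul_apply, Fin.sum_univ_two]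

/-- the translation -/
def tk (k : ℤ) : SL(2, ℤ) := ⟨!![1, k; 0, 1], by simp [Matrix.det_fin_two]⟩

theorem tk00 (k : ℤ) : (tk k).1 0 0 = 1 := rfl
theorem tk01 (k : ℤ) : (tk k).1 0 1 = k := rfl
theorem tk10 (k : ℤ) : (tk k).1 1 0 = 0 := rfl
theorem tk11 (k : ℤ) : (tk k).1 1 1 = 1 := rfl

theorem ext2 {g h : SL(2, ℤ)} (h1 : g.1 0 0 = h.1 0 0) (h2 : g.1 0 1 = h.1 0 1)
    (h3 : g.1 1 0 = h.1 1 0) (h4 : g.1 1 1 = h.1 1 1) : g = h := by
  ext i j
  fin_cases i <;> fin_cases j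
  · exact h1
  · exact h2
  · exact h3
  · exact h4

theorem one00 : (1 : SL(2, ℤ)).1 0 0 = 1 := rfl
theorem one01 : (1 : SL(2, ℤ)).1 0 1 = 0 := rfl
theorem one10 : (1 : SL(2, ℤ)).1 1 0 = 0 := rfl
theorem one11 : (1 : SL(2, ℤ)).1 1 1 = 1 := rfl

theorem tk_inv (k : ℤ) : (tk k)⁻¹ = tk (-k) := by
  rw [inv_eq_iff_mul_eq_one]
  apply ext2 <;> simp only [mul_ent, tk00, tk01, tk10, tk11, one00, one01, one10, one11] <;> ring

/-- the inversion -/
def sS : SL(2, ℤ) := ⟨!![0, -1; 1, 0], by simp [Matrix.det_fin_two]⟩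

def sSi : SL(2, ℤ) := ⟨!![0, 1; -1, 0], by simp [Matrix.det_fin_two]⟩

theorem s00 : sS.1 0 0 = 0 := rfl
theorem s01 : sS.1 0 1 = -1 := rfl
theorem s10 : sS.1 1 0 = 1 := rfl
theorem s11 : sS.1 1 1 = 0 := rfl
theorem si00 : sSi.1 0 0 = 0 := rfl
theorem si01 : sSi.1 0 1 = 1 := rfl
theorem si10 : sSi.1 1 0 = -1 := rfl
theorem si11 : sSi.1 1 1 = 0 := rfl

theorem sS_inv : sS⁻¹ = sSi := by
  rw [inv_eq_iff_mul_eq_one]
  apply ext2 <;> simp only [mul_ent, s00, s01, s10, s11, si00, si01, si10, si11, one00, one01,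
    one10, one11] <;> ring

theorem s_conj (X : SL(2, ℤ)) : (sS * X * sSi).1 1 0 = -X.1 0 1 := by
  rw [mul_ent (sS * X) sSi, mul_ent sS X, mul_ent sS X, s10, s11, si00, si10]
  ring

theorem det_eq (g : SL(2, ℤ)) : g.1 0 0 * g.1 1 1 - g.1 0 1 * g.1 1 0 = 1 := by
  have := g.2
  rwa [Matrix.det_fin_two] at this

theorem conj_trace (α g : SL(2, ℤ)) : Matrix.trace (α * g * α⁻¹).1 = Matrix.trace g.1 := by
  simp only [Matrix.SpecialLinearGroup.coe_mul]
  rw [Matrix.trace_mul_comm, ← mul_assoc, ← Matrix.SpecialLinearGroup.coe_mul, inv_mul_cancel,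
    Matrix.SpecialLinearGroup.coe_one, one_mul]

theorem exists_red (g : SL(2, ℤ)) (hg : 2 < Matrix.trace g.1) : ∃ α : SL(2, ℤ), Red (α * g * α⁻¹) := by
  classical
  have hex : ∃ n : ℕ, ∃ α : SL(2, ℤ), ((α * g * α⁻¹).1 1 0).natAbs = n := ⟨_, 1, rfl⟩
  obtain ⟨α, hα⟩ := Nat.find_spec hex
  have hmin : ∀ β : SL(2, ℤ), ((α * g * α⁻¹).1 1 0).natAbs ≤ ((β * g * β⁻¹).1 1 0).natAbs := by
    intro β
    rw [hα]
    exact Nat.find_min' hex ⟨β, rfl⟩
  set h := α * g * α⁻¹ with hh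
  have htr : 2 < h.1 0 0 + h.1 1 1 := by
    have := conj_trace α g
    rw [← hh, Matrix.trace_fin_two] at this
    rw [this]
    exact hg
  have hdet := det_eq h
  set a := h.1 0 0 with ha
  set b := h.1 0 1 with hb
  set c := h.1 1 0 with hc
  set d := h.1 1 1 with hd
  have hc0 : c ≠ 0 := by
    intro h0
    rw [h0, mul_zero, sub_zero] at hdet
    have h1 : a = 1 ∨ a = -1 := Int.eq_one_or_neg_one_of_mul_eq_one hdet
    rcases h1 with h1 | h1
    · rw [h1] at hdet htr; omega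
    · rw [h1] at hdet htr; omega
  -- the translated matrix
  have hcp : 0 < |c| := abs_pos.2 hc0
  obtain ⟨k, hk⟩ : ∃ k : ℤ, |a - d + 2 * k * c| ≤ |c| := by
    have h2 : (0 : ℤ) < 2 * |c| := by linarith
    have h3 := Int.emod_nonneg (a - d + |c|) h2.ne'
    have h4 := Int.emod_lt_of_pos (a - d + |c|) h2
    have h5 := Int.emod_add_mul_ediv (a - d + |c|) (2 * |c|)
    set q := (a - d + |c|) / (2 * |c|) with hq
    rcases abs_choice c with h6 | h6
    · refine ⟨-q, ?_⟩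
      rw [abs_le]
      have e : a - d + 2 * (-q) * c = (a - d + |c|) % (2 * |c|) - |c| := by
        have : 2 * q * |c| = 2 * q * c := by rw [h6]
        linarith
      rw [e]
      constructor <;> linarith
    · refine ⟨q, ?_⟩
      rw [abs_le]
      have e : a - d + 2 * q * c = (a - d + |c|) % (2 * |c|) - |c| := by
        have : 2 * q * |c| = -(2 * q * c) := by rw [h6]; ring
        linarith
      rw [e]
      constructor <;> linarith
  set β : SL(2, ℤ) := tk k * α with hβ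
  have e1 : β * g * β⁻¹ = tk k * h * tk (-k) := by
    rw [hβ, hh, mul_inv_rev, tk_inv]
    group
  have e00 : (tk k * h * tk (-k)).1 0 0 = a + k * c := by
    simp only [mul_ent, tk00, tk01, tk10, tk11, ha, hc]
    ring
  have e10 : (tk k * h * tk (-k)).1 1 0 = c := by
    simp only [mul_ent, tk00, tk01, tk10, tk11, hc]
    ring
  have e11 : (tk k * h * tk (-k)).1 1 1 = d - k * c := by
    simp only [mul_ent, tk00, tk01, tk10, tk11, hc, hd]
    ring
  set b' := (tk k * h * tk (-k)).1 0 1 with hb'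
  have hdet' := det_eq (tk k * h * tk (-k))
  rw [e00, e10, e11, ← hb'] at hdet'
  -- minimality
  have hm := hmin (sS * β)
  have e2 : sS * β * g * (sS * β)⁻¹ = sS * (tk k * h * tk (-k)) * sSi := by
    rw [mul_inv_rev, sS_inv, ← e1]
    group
  have e3 : (sS * (tk k * h * tk (-k)) * sSi).1 1 0 = -b' := by
    rw [hb', s_conj]
  rw [e2, e3, Int.natAbs_neg] at hm
  have hm' : |c| ≤ |b'| := by
    rw [Int.abs_eq_natAbs, Int.abs_eq_natAbs]
    exact_mod_cast hm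
  refine ⟨β, ?_⟩
  unfold Red
  rw [e1, e00, e10, e11]
  have e4 : a + k * c - (d - k * c) = a - d + 2 * k * c := by ring
  have e5 : a + k * c + (d - k * c) = a + d := by ring
  rw [e4, e5]
  refine ⟨hk, ?_, hc0⟩
  set m := a - d + 2 * k * c with hmdef
  have hquad : m ^ 2 + 4 * (b' * c) = (a + d) ^ 2 - 4 := by
    have : (a + k * c) * (d - k * c) - b' * c = 1 := hdet'
    rw [hmdef]
    nlinarith [this]
  have hm2 : m ^ 2 ≤ c ^ 2 := sq_le_sq.2 hk
  have hc2 : 0 < c ^ 2 := by positivity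
  have hbc : c ^ 2 ≤ |b' * c| := by
    rw [abs_mul, ← sq_abs c, sq]
    exact mul_le_mul_of_nonneg_right hm' (abs_nonneg c)
  have ht4 : 4 < (a + d) ^ 2 := by nlinarith
  by_contra hcon
  push Not at hcon
  have hcon2 : (a + d) ^ 2 < c ^ 2 := by
    rw [← sq_abs c]
    nlinarith
  rcases abs_choice (b' * c) with h7 | h7
  · rw [h7] at hbc
    nlinarith [sq_nonneg m]
  · rw [h7] at hbc
    nlinarith

theorem red_ext {r r' : SL(2, ℤ)} (hr : Red r) (h1 : Matrix.trace r.1 = Matrix.trace r'.1)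
    (h2 : r.1 0 0 - r.1 1 1 = r'.1 0 0 - r'.1 1 1) (h3 : r.1 1 0 = r'.1 1 0) : r = r' := by
  rw [Matrix.trace_fin_two, Matrix.trace_fin_two] at h1
  have ha : r.1 0 0 = r'.1 0 0 := by omega
  have hd : r.1 1 1 = r'.1 1 1 := by omega
  have hb : r.1 0 1 = r'.1 0 1 := by
    have e1 := det_eq r
    have e2 := det_eq r'
    rw [← ha, ← hd, ← h3] at e2
    have : r.1 0 1 * r.1 1 0 = r'.1 0 1 * r.1 1 0 := by linarith
    exact mul_right_cancel₀ hr.2.2 this
  exact ext2 ha hb h3 hd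

end Pool.Agent.U252.SZ
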