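import Pool.Agent.U252.SZ.Cls
import Pool.Agent.U252.RM.Cx

/-! The Selberg zeta function as the exponential of a Dirichlet series. -/

set_option autoImplicit false

open scoped MatrixGroups

namespace Pool.Agent.U252.SZ

open Pool.Agent.U252.RM

variable {Γ : Subgroup SL(2, ℤ)}

/-- the length of the `m + 1`-fold iterate -/
noncomputable def ll (x : Geodesic Γ × ℕ) : ℝ := (x.2 + 1) * x.1.len

/-- the coefficient -/
noncomputable def cr (x : Geodesic Γ × ℕ) : ℝ := -(1 / ((x.2 + 1) * (1 - Real.exp (-ll x))))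

theorem len_ge (P : Geodesic Γ) : Real.exp (-P.len) ≤ 1 / 4 := by
  have h := exp_len_four P
  rw [Real.exp_neg, one_div]
  gcongr

theorem ll_ge (x : Geodesic Γ × ℕ) : x.1.len ≤ ll x := by
  have h0 := len_pos x.1
  have h1 : (0 : ℝ) ≤ x.2 := x.2.cast_nonneg
  unfold ll
  nlinarith

theorem ll_pos (x : Geodesic Γ × ℕ) : 0 < ll x := (len_pos x.1).trans_le (ll_ge x)

theorem exp_ll (x : Geodesic Γ × ℕ) : Real.exp (-ll x) ≤ 1 / 4 :=
  (Real.exp_le_exp.2 (neg_le_neg (ll_ge x))).trans (len_ge x.1)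

theorem cr_le (x : Geodesic Γ × ℕ) : |cr x| ≤ 2 := by
  have h1 := exp_ll x
  have h2 : (0 : ℝ) ≤ x.2 := x.2.cast_nonneg
  have h3 : 0 < ((x.2 : ℝ) + 1) * (1 - Real.exp (-ll x)) := mul_pos (by positivity) (by linarith)
  unfold cr
  rw [abs_neg, abs_of_pos (by positivity), div_le_iff₀ h3]
  nlinarith

theorem exp_sll {σ : ℝ} (hσ : 1 ≤ σ) (x : Geodesic Γ × ℕ) :
    Real.exp (-(σ * ll x)) ≤ Real.exp (-(σ * x.1.len)) * (1 / 4) ^ x.2 := by
  have e : Real.exp (-(σ * ll x)) = Real.exp (-(σ * x.1.len)) * Real.exp (-(σ * x.1.len)) ^ x.2 := by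
    rw [← Real.exp_nat_mul, ← Real.exp_add]
    unfold ll
    congr 1
    ring
  rw [e]
  have h1 : Real.exp (-(σ * x.1.len)) ≤ 1 / 4 := by
    refine le_trans (Real.exp_le_exp.2 ?_) (len_ge x.1)
    have := len_pos x.1
    nlinarith
  gcongr

theorem sum_ll [Γ.FiniteIndex] {σ : ℝ} (hσ : 2 ≤ σ) :
    Summable fun x : Geodesic Γ × ℕ => Real.exp (-(σ * ll x)) := by
  have h1 : Summable fun m : ℕ => ((1 / 4 : ℝ)) ^ m :=
    summable_geometric_of_lt_one (by norm_num) (by norm_num)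
  have h2 := (sum_geo (Γ := Γ) hσ).mul_of_nonneg h1 (fun _ => (Real.exp_pos _).le)
    (fun _ => by positivity)
  exact Summable.of_nonneg_of_le (fun _ => (Real.exp_pos _).le)
    (fun x => exp_sll (by linarith) x) h2

theorem sum_cr [Γ.FiniteIndex] {σ : ℝ} (hσ : 2 ≤ σ) :
    Summable fun x : Geodesic Γ × ℕ => ‖((cr x : ℝ) : ℂ)‖ * Real.exp (-(σ * ll x)) := by
  refine Summable.of_nonneg_of_le (fun _ => by positivity) (fun x => ?_) ((sum_ll hσ).mul_left 2)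
  rw [Complex.norm_real, Real.norm_eq_abs]
  have := cr_le x
  gcongr

section q

variable {x : ℂ} {q : ℝ}

theorem qlt (hx : ‖x‖ ≤ 1 / 4) (hq0 : 0 < q) (_hq1 : q ≤ 1 / 4) (k : ℕ) :
    ‖x * (q : ℂ) ^ k‖ ≤ 1 / 4 * q ^ k := by
  rw [norm_mul, norm_pow, Complex.norm_real, Real.norm_of_nonneg hq0.le]
  gcongr

theorem qlt1 (hx : ‖x‖ ≤ 1 / 4) (hq0 : 0 < q) (hq1 : q ≤ 1 / 4) (k : ℕ) :
    ‖x * (q : ℂ) ^ k‖ ≤ 1 / 4 := by
  refine (qlt hx hq0 hq1 k).trans ?_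
  have : q ^ k ≤ 1 := pow_le_one₀ hq0.le (by linarith)
  linarith

theorem qlt2 (hx : ‖x‖ ≤ 1 / 4) (hq0 : 0 < q) (hq1 : q ≤ 1 / 4) (k : ℕ) :
    ‖x * (q : ℂ) ^ k‖ ≤ (1 / 4) ^ k := by
  refine (qlt hx hq0 hq1 k).trans ?_
  have h8 : q ^ k ≤ (1 / 4) ^ k := pow_le_pow_left₀ hq0.le hq1 k
  have h9 : (0 : ℝ) ≤ q ^ k := by positivity
  linarith

/-- the double series -/
noncomputable def GG (x : ℂ) (q : ℝ) (y : ℕ × ℕ) : ℂ :=
  (x * (q : ℂ) ^ y.1) ^ (y.2 + 1) / (y.2 + 1)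

theorem GG_sum (hx : ‖x‖ ≤ 1 / 4) (hq0 : 0 < q) (hq1 : q ≤ 1 / 4) : Summable (GG x q) := by
  have h1 : Summable fun m : ℕ => ((1 / 4 : ℝ)) ^ m :=
    summable_geometric_of_lt_one (by norm_num) (by norm_num)
  have h2 := h1.mul_of_nonneg h1 (fun _ => by positivity) (fun _ => by positivity)
  refine Summable.of_norm_bounded h2 fun y => ?_
  have h3 : ‖((y.2 : ℂ) + 1)‖ = (y.2 : ℝ) + 1 := by
    have : ((y.2 : ℂ) + 1) = (((y.2 : ℝ) + 1 : ℝ) : ℂ) := by push_cast; ring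
    rw [this, Complex.norm_real, Real.norm_of_nonneg (by positivity)]
  unfold GG
  rw [norm_div, norm_pow, h3, div_le_iff₀ (by positivity), pow_succ]
  have h6 : ‖x * (q : ℂ) ^ y.1‖ ^ y.2 ≤ (1 / 4) ^ y.2 :=
    pow_le_pow_left₀ (norm_nonneg _) (qlt1 hx hq0 hq1 y.1) y.2
  have h7 := qlt2 hx hq0 hq1 y.1
  have h5 : ‖x * (q : ℂ) ^ y.1‖ ^ y.2 * ‖x * (q : ℂ) ^ y.1‖ ≤ (1 / 4) ^ y.2 * (1 / 4) ^ y.1 :=
    mul_le_mul h6 h7 (norm_nonneg _) (by positivity)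
  refine h5.trans ?_
  have h8 : (0 : ℝ) ≤ (1 / 4) ^ y.1 * (1 / 4) ^ y.2 := by positivity
  have h9 : (0 : ℝ) ≤ y.2 := y.2.cast_nonneg
  nlinarith

theorem GG_log (hx : ‖x‖ ≤ 1 / 4) (hq0 : 0 < q) (hq1 : q ≤ 1 / 4) (k : ℕ) :
    ∑' m : ℕ, GG x q (k, m) = -Complex.log (1 - x * (q : ℂ) ^ k) := by
  have h := Complex.hasSum_taylorSeries_neg_log'
    (z := x * (q : ℂ) ^ k) ((qlt1 hx hq0 hq1 k).trans_lt (by norm_num))
  rw [← h.tsum_eq]
  exact tsum_congr fun m => rfl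

theorem GG_geo (hq0 : 0 < q) (hq1 : q ≤ 1 / 4) (m : ℕ) :
    ∑' k : ℕ, GG x q (k, m) = x ^ (m + 1) / (m + 1) * (1 - (q : ℂ) ^ (m + 1))⁻¹ := by
  have hqm : ‖(q : ℂ) ^ (m + 1)‖ < 1 := by
    rw [norm_pow, Complex.norm_real, Real.norm_of_nonneg hq0.le]
    exact pow_lt_one₀ hq0.le (by linarith) (by omega)
  rw [← tsum_geometric_of_norm_lt_one hqm, ← tsum_mul_left]
  refine tsum_congr fun k => ?_
  unfold GG
  simp only
  rw [mul_pow, ← pow_mul, ← pow_mul, mul_comm k (m + 1)]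
  ring

theorem qprod (hx : ‖x‖ ≤ 1 / 4) (hq0 : 0 < q) (hq1 : q ≤ 1 / 4) :
    ∏' k : ℕ, (1 - x * (q : ℂ) ^ k) =
      Complex.exp (-∑' m : ℕ, x ^ (m + 1) / (m + 1) * (1 - (q : ℂ) ^ (m + 1))⁻¹) := by
  have hsl : Summable fun k : ℕ => Complex.log (1 - x * (q : ℂ) ^ k) := by
    refine ((GG_sum hx hq0 hq1).prod.neg).congr fun k => ?_
    rw [GG_log hx hq0 hq1, neg_neg]
  have hne : ∀ k : ℕ, 1 - x * (q : ℂ) ^ k ≠ 0 := by
    intro k h
    have h1 : x * (q : ℂ) ^ k = 1 := (sub_eq_zero.1 h).symm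
    have h2 := qlt1 hx hq0 hq1 k
    rw [h1, norm_one] at h2
    norm_num at h2
  rw [← Complex.cexp_tsum_eq_tprod hne hsl]
  congr 1
  have h2 : ∑' k : ℕ, Complex.log (1 - x * (q : ℂ) ^ k) =
      -∑' k : ℕ, ∑' m : ℕ, GG x q (k, m) := by
    rw [← tsum_neg]
    refine tsum_congr fun k => ?_
    rw [GG_log hx hq0 hq1, neg_neg]
  have h3 : ∑' k : ℕ, ∑' m : ℕ, GG x q (k, m) = ∑' m : ℕ, ∑' k : ℕ, GG x q (k, m) :=
    (Summable.tsum_comm (f := fun k m => GG x q (k, m)) (GG_sum hx hq0 hq1)).symm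
  rw [h2, h3]
  congr 1
  exact tsum_congr fun m => GG_geo hq0 hq1 m

end q

/-- the logarithm of the factor of `P` -/
theorem inner (P : Geodesic Γ) {s : ℂ} (hs : 1 ≤ s.re) :
    ∏' k : ℕ, (1 - Complex.exp (-((s + k) * P.len))) =
      Complex.exp (∑' m : ℕ, ((cr (P, m) : ℝ) : ℂ) * Complex.exp (-(s * (ll (P, m) : ℝ)))) := by
  have hq0 : 0 < Real.exp (-P.len) := Real.exp_pos _
  have hq1 : Real.exp (-P.len) ≤ 1 / 4 := len_ge P
  have hxn : ‖Complex.exp (-(s * P.len))‖ ≤ 1 / 4 := by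
    rw [Complex.norm_exp]
    refine le_trans (Real.exp_le_exp.2 ?_) hq1
    have h1 : (-(s * (P.len : ℂ))).re = -(s.re * P.len) := by simp
    rw [h1]
    have := len_pos P
    nlinarith
  have h0 := qprod hxn hq0 hq1
  have h1 : ∏' k : ℕ, (1 - Complex.exp (-((s + k) * P.len))) =
      ∏' k : ℕ, (1 - Complex.exp (-(s * P.len)) * ((Real.exp (-P.len) : ℝ) : ℂ) ^ k) := by
    refine tprod_congr fun k => ?_
    rw [Complex.ofReal_exp, ← Complex.exp_nat_mul, ← Complex.exp_add]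
    congr 2
    push_cast
    ring
  rw [h1, h0]
  congr 1
  rw [← tsum_neg]
  refine tsum_congr fun m => ?_
  have h5 : Complex.exp (-(s * ((ll (P, m) : ℝ) : ℂ))) = Complex.exp (-(s * P.len)) ^ (m + 1) := by
    rw [← Complex.exp_nat_mul]
    unfold ll
    congr 1
    push_cast
    ring
  have h6 : Real.exp (-ll (P, m)) = Real.exp (-P.len) ^ (m + 1) := by
    rw [← Real.exp_nat_mul]
    unfold ll
    congr 1
    push_cast
    ring
  have hqm : ‖((Real.exp (-P.len) : ℝ) : ℂ) ^ (m + 1)‖ < 1 := by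
    rw [norm_pow, Complex.norm_real, Real.norm_of_nonneg hq0.le]
    exact pow_lt_one₀ hq0.le (by linarith) (by omega)
  rw [h5]
  unfold cr
  rw [h6]
  set X := Complex.exp (-(s * P.len)) ^ (m + 1)
  set Q := Real.exp (-P.len) with hQ
  have h7 : (1 - (Q : ℂ) ^ (m + 1)) ≠ 0 := by
    intro h
    rw [← (sub_eq_zero.1 h), norm_one] at hqm
    exact lt_irrefl _ hqm
  have h8 : ((m : ℂ) + 1) ≠ 0 := by exact_mod_cast Nat.succ_ne_zero m
  have h9 : ((-(1 / ((((P, m) : Geodesic Γ × ℕ).2 + 1) * (1 - Q ^ (m + 1)))) : ℝ) : ℂ) =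
      -(1 / (((m : ℂ) + 1) * (1 - (Q : ℂ) ^ (m + 1)))) := by push_cast; ring
  rw [h9]
  field_simp

/-- **The Selberg zeta function is the exponential of a Dirichlet series.** -/
theorem zeta_cds [Γ.FiniteIndex] {F : ℂ → ℂ} (hF : ∀ s : ℂ, 2 < s.re → F s = selbergZeta Γ s) :
    CDS 2 (ll (Γ := Γ)) (fun x => ((cr x : ℝ) : ℂ)) F where
  lam_nonneg x := (ll_pos x).le
  sum σ hσ := sum_cr hσ.le
  eq s hs := by
    rw [hF s hs]
    unfold selbergZeta cser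
    have h1 : Summable fun x : Geodesic Γ × ℕ =>
        ((cr x : ℝ) : ℂ) * Complex.exp (-(s * (ll x : ℝ))) := by
      refine Summable.of_norm_bounded (sum_cr (Γ := Γ) hs.le) fun x => ?_
      rw [norm_mul, Pool.Agent.N41.RM.norm_expo]
    have h2 := h1.prod
    rw [h1.tsum_prod]
    rw [← (h2.hasSum.cexp).tprod_eq]
    refine tprod_congr fun P => ?_
    rw [inner P (by linarith)]
    rfl

end Pool.Agent.U252.SZ
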